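import Pool.Agent.Helper62.LH.StS

/-!
# Project LH (MP_087a81_gt), module EPF: determinants of two groups of vectors
-/

set_option autoImplicit false
set_option maxSynthPendingDepth 3

open Set Filter Topology MeasureTheory
open scoped ContDiff ENNReal

noncomputable section

namespace Pool.Agent.Helper19.LH

open Helper62.LH

private lemma ap_left_EPF {n k l : ℕ} (h : k + l = n) (u : Fin k → E n) (w : Fin l → E n)
    (i : Fin k) : ap h u w (Fin.cast h (Fin.castAdd l i)) = u i := by
  subst h
  simp [ap]

private lemma ap_right_EPF {n k l : ℕ} (h : k + l = n) (u : Fin k → E n) (w : Fin l → E n)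
    (i : Fin l) : ap h u w (Fin.cast h (Fin.natAdd k i)) = w i := by
  subst h
  simp [ap]

private lemma ap_ext_EPF {n k l : ℕ} {α : Type} (h : k + l = n) (P Q : Fin n → α)
    (h1 : ∀ i : Fin k, P (Fin.cast h (Fin.castAdd l i)) = Q (Fin.cast h (Fin.castAdd l i)))
    (h2 : ∀ i : Fin l, P (Fin.cast h (Fin.natAdd k i)) = Q (Fin.cast h (Fin.natAdd k i))) :
    P = Q := by
  subst h
  funext i
  refine Fin.addCases (fun i => ?_) (fun i => ?_) i
  · exact h1 i
  · exact h2 i

private lemma up_right_EPF {n k l : ℕ} (h : k + l = n) (u : Fin k → E n) (w : Fin l → E n)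
    (j : Fin l) (x : E n) : ap h u (Function.update w j x) =
      Function.update (ap h u w) (Fin.cast h (Fin.natAdd k j)) x := by
  refine ap_ext_EPF h _ _ (fun i => ?_) (fun i => ?_)
  · rw [ap_left_EPF, Function.update_of_ne, ap_left_EPF]
    intro he
    have h3 := congrArg Fin.val he
    simp only [Fin.val_cast, Fin.val_castAdd, Fin.val_natAdd] at h3
    have := i.2
    lia
  · rw [ap_right_EPF]
    by_cases hij : i = j
    · subst hij
      simp
    · rw [Function.update_of_ne hij, Function.update_of_ne, ap_right_EPF]
      intro he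
      apply hij
      have h3 := congrArg Fin.val he
      simp only [Fin.val_cast, Fin.val_natAdd] at h3
      ext
      lia

private lemma up_left_EPF {n k l : ℕ} (h : k + l = n) (u : Fin k → E n) (w : Fin l → E n)
    (j : Fin k) (x : E n) : ap h (Function.update u j x) w =
      Function.update (ap h u w) (Fin.cast h (Fin.castAdd l j)) x := by
  refine ap_ext_EPF h _ _ (fun i => ?_) (fun i => ?_)
  · rw [ap_left_EPF]
    by_cases hij : i = j
    · subst hij
      simp
    · rw [Function.update_of_ne hij, Function.update_of_ne, ap_left_EPF]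
      intro he
      apply hij
      have h3 := congrArg Fin.val he
      simp only [Fin.val_cast, Fin.val_castAdd] at h3
      ext
      exact h3
  · rw [ap_right_EPF, Function.update_of_ne, ap_right_EPF]
    intro he
    have h3 := congrArg Fin.val he
    simp only [Fin.val_cast, Fin.val_castAdd, Fin.val_natAdd] at h3
    have := j.2
    lia

/-- the determinant as an alternating map -/
private def Dt_EPF (n : ℕ) : E n [⋀^Fin n]→ₗ[ℝ] ℝ :=
  (Matrix.detRowAlternating (n := Fin n) (R := ℝ)).compLinearMap
    ((EuclideanSpace.equiv (Fin n) ℝ).toLinearEquiv : E n →ₗ[ℝ] (Fin n → ℝ))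

private lemma Dt_apply_EPF {n : ℕ} (v : Fin n → E n) : vdet v = Dt_EPF n v := rfl

private lemma vdet_cont_EPF (n : ℕ) : Continuous (fun v : Fin n → E n => vdet v) := by
  unfold vdet
  refine Continuous.matrix_det ?_
  refine continuous_matrix fun i j => ?_
  simp only [Matrix.of_apply]
  fun_prop

/-- an alternating map from a group of arguments -/
private lemma mk_EPF {n p : ℕ} (Φ : (Fin p → E n) → (Fin n → E n)) (idx : Fin p → Fin n)
    (hinj : Function.Injective idx)
    (hup : ∀ w j x, Φ (Function.update w j x) = Function.update (Φ w) (idx j) x)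
    (hval : ∀ w j, Φ w (idx j) = w j) (hcont : Continuous Φ) :
    ∃ A : E n [⋀^Fin p]→L[ℝ] ℝ, ∀ w, A w = vdet (Φ w) := by
  refine ⟨{ toFun := fun w => vdet (Φ w), map_update_add' := ?_, map_update_smul' := ?_,
            map_eq_zero_of_eq' := ?_, cont := ?_ }, fun w => rfl⟩
  · intro inst w j x y
    obtain rfl : inst = instDecidableEqFin p := Subsingleton.elim _ _
    rw [hup, hup, hup, Dt_apply_EPF, Dt_apply_EPF, Dt_apply_EPF, AlternatingMap.map_update_add]
  · intro inst w j c x
    obtain rfl : inst = instDecidableEqFin p := Subsingleton.elim _ _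
    rw [hup, hup, Dt_apply_EPF, Dt_apply_EPF, AlternatingMap.map_update_smul]
  · exact (vdet_cont_EPF n).comp hcont
  · intro w i j hw hij
    have h1 : vdet (Φ w) = 0 := by
      rw [Dt_apply_EPF]
      refine (Dt_EPF n).map_eq_zero_of_eq (Φ w) (i := idx i) (j := idx j) ?_ ?_
      · rw [hval, hval]
        exact hw
      · exact fun h => hij (hinj h)
    exact h1

private lemma cont_right_EPF {n k l : ℕ} (h : k + l = n) (u : Fin k → E n) :
    Continuous (fun w : Fin l → E n => ap h u w) := by
  refine continuous_pi fun i => ?_
  subst h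
  refine Fin.addCases (fun i => ?_) (fun i => ?_) i
  · have e : (fun w : Fin l → E (k + l) => ap rfl u w (Fin.castAdd l i)) = fun _ => u i := by
      funext w
      exact ap_left_EPF rfl u w i
    rw [e]
    exact continuous_const
  · have e : (fun w : Fin l → E (k + l) => ap rfl u w (Fin.natAdd k i)) = fun w => w i := by
      funext w
      exact ap_right_EPF rfl u w i
    rw [e]
    exact continuous_apply i

private lemma cont_left_EPF {n k l : ℕ} (h : k + l = n) (w : Fin l → E n) :
    Continuous (fun u : Fin k → E n => ap h u w) := by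
  refine continuous_pi fun i => ?_
  subst h
  refine Fin.addCases (fun i => ?_) (fun i => ?_) i
  · have e : (fun u : Fin k → E (k + l) => ap rfl u w (Fin.castAdd l i)) = fun u => u i := by
      funext u
      exact ap_left_EPF rfl u w i
    rw [e]
    exact continuous_apply i
  · have e : (fun u : Fin k → E (k + l) => ap rfl u w (Fin.natAdd k i)) = fun _ => w i := by
      funext u
      exact ap_right_EPF rfl u w i
    rw [e]
    exact continuous_const

theorem hEpf : StEpf := by
  intro n k l h h'
  refine ⟨?_, ?_, ?_, ?_⟩
  · -- exchange of the two blocks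
    let σ : Equiv.Perm (Fin n) :=
      (finCongr h'.symm).trans ((finAddFlip (m := l) (n := k)).trans (finCongr h))
    refine ⟨((Equiv.Perm.sign σ : ℤ) : ℝ), ?_, fun u w => ?_⟩
    · have h1 : ((Equiv.Perm.sign σ : ℤ)) * ((Equiv.Perm.sign σ : ℤ)) = 1 := by
        rw [← Units.val_mul, Int.units_mul_self, Units.val_one]
      exact_mod_cast h1
    · have h1 : ap h' w u = fun i => ap h u w (σ i) := by
        refine ap_ext_EPF h' _ _ (fun i => ?_) (fun i => ?_)
        · rw [ap_left_EPF]
          have e : σ (Fin.cast h' (Fin.castAdd k i)) = Fin.cast h (Fin.natAdd k i) := by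
            simp [σ]
          rw [e, ap_right_EPF]
        · rw [ap_right_EPF]
          have e : σ (Fin.cast h' (Fin.natAdd l i)) = Fin.cast h (Fin.castAdd l i) := by
            simp [σ]
          rw [e, ap_left_EPF]
      rw [h1]
      unfold vdet
      exact Matrix.det_permute σ (Matrix.of fun i j => ap h u w i j)
  · intro f I J
    unfold eps
    let L : Fin n → Fin n := fun i => Fin.append I J (Fin.cast h.symm i)
    have hL : ∀ F : Fin n → E n, ap h (fun a => F (I a)) (fun b => F (J b)) =
        fun i => F (L i) := by
      intro F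
      refine ap_ext_EPF h _ _ (fun i => ?_) (fun i => ?_)
      · rw [ap_left_EPF]
        simp [L]
      · rw [ap_right_EPF]
        simp [L]
    rw [hL f, hL (fun i => ee i)]
    unfold vdet
    rw [mul_comm, ← Matrix.det_mul]
    congr 1
    ext i j
    rw [Matrix.mul_apply]
    simp [ee, Pi.single_apply]
  · intro u
    refine mk_EPF (fun w => ap h u w) (fun j => Fin.cast h (Fin.natAdd k j)) ?_ ?_ ?_ ?_
    · intro i j hij
      have h3 := congrArg Fin.val hij
      simp only [Fin.val_cast, Fin.val_natAdd] at h3
      ext
      lia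
    · exact fun w j x => up_right_EPF h u w j x
    · exact fun w j => ap_right_EPF h u w j
    · exact cont_right_EPF h u
  · intro w
    refine mk_EPF (fun u => ap h u w) (fun j => Fin.cast h (Fin.castAdd l j)) ?_ ?_ ?_ ?_
    · intro i j hij
      have h3 := congrArg Fin.val hij
      simp only [Fin.val_cast, Fin.val_castAdd] at h3
      ext
      exact h3
    · exact fun u j x => up_left_EPF h u w j x
    · exact fun u j => ap_left_EPF h u w j
    · exact cont_left_EPF h w

end Pool.Agent.Helper19.LH
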