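import Pool.Agent.Helper62.LH.StV
import Pool.Agent.Helper41.LH.M_CHR

/-!
# Project LH (MP_087a81_gt), module PTH: estimate of a one-form vanishing at a point
-/

set_option autoImplicit false
set_option maxSynthPendingDepth 3

open Set Filter Topology MeasureTheory
open scoped ContDiff ENNReal

noncomputable section

namespace Pool.Agent.Helper19.LH

open Helper62.LH

private lemma det_ne_PTH {n : ℕ} {g : E n → Bl n} (hg : IsMet g) (x : E n) :
    (gm g x).det ≠ 0 := by
  intro h0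
  obtain ⟨v, hv, hv0⟩ := Matrix.exists_mulVec_eq_zero_iff.2 h0
  have hw0 : (∑ j, v j • (ee j : E n)) ≠ 0 := by
    intro h
    apply hv
    funext i
    have h3 := congrArg (fun z : E n => z i) h
    simpa [ee, Pi.single_apply] using h3
  have h1 := hg.pos x _ hw0
  have h2 : g x (∑ j, v j • (ee j : E n)) (∑ j, v j • (ee j : E n)) =
      ∑ i, v i * (Matrix.mulVec (gm g x) v i) := by
    simp only [map_sum, map_smul, ContinuousLinearMap.sum_apply, ContinuousLinearMap.smul_apply,
      smul_eq_mul, Matrix.mulVec, dotProduct, gm, Matrix.of_apply]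
    refine Finset.sum_congr rfl fun i _ => ?_
    congr 1
    refine Finset.sum_congr rfl fun j _ => ?_
    rw [hg.symm x (ee i) (ee j)]
    ring
  rw [h2, hv0] at h1
  simp at h1

private lemma gm_smooth_PTH {n : ℕ} {g : E n → Bl n} (hg : IsMet g) (i j : Fin n) :
    ContDiff ℝ ∞ (fun x => gm g x i j) := by
  have h : (fun x => gm g x i j) = fun x => g x (ee i) (ee j) := by
    funext x
    rfl
  rw [h]
  exact (hg.smooth.clm_apply contDiff_const).clm_apply contDiff_const

private lemma det_smooth_PTH {n : ℕ} {A : E n → Matrix (Fin n) (Fin n) ℝ}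
    (hA : ∀ i j, ContDiff ℝ ∞ (fun x => A x i j)) : ContDiff ℝ ∞ (fun x => (A x).det) := by
  have h : (fun x => (A x).det) = fun x =>
      ∑ σ : Equiv.Perm (Fin n), (Equiv.Perm.sign σ : ℤ) • ∏ i, A x (σ i) i := by
    funext x
    rw [Matrix.det_apply]
    rfl
  rw [h]
  refine ContDiff.sum fun σ _ => ?_
  have h2 : (fun x => (Equiv.Perm.sign σ : ℤ) • ∏ i, A x (σ i) i) =
      fun x => (((Equiv.Perm.sign σ : ℤ) : ℝ)) * ∏ i, A x (σ i) i := by
    funext x
    rw [zsmul_eq_mul]
  rw [h2]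
  exact contDiff_const.mul (contDiff_prod fun i _ => hA (σ i) i)

private lemma gi_smooth_PTH {n : ℕ} {g : E n → Bl n} (hg : IsMet g) (i j : Fin n) :
    ContDiff ℝ ∞ (fun x => gi g x i j) := by
  have h : (fun x => gi g x i j) = fun x =>
      ((gm g x).det)⁻¹ * ((gm g x).updateRow j (Pi.single i 1)).det := by
    funext x
    rw [gi, Matrix.inv_def, Matrix.smul_apply, Matrix.adjugate_apply, smul_eq_mul,
      Ring.inverse_eq_inv']
  rw [h]
  refine ContDiff.mul ?_ ?_
  · exact (det_smooth_PTH (gm_smooth_PTH hg)).inv (det_ne_PTH hg)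
  · refine det_smooth_PTH fun a b => ?_
    by_cases hab : a = j
    · subst hab
      simp only [Matrix.updateRow_self]
      exact contDiff_const
    · simp only [Matrix.updateRow_ne hab]
      exact gm_smooth_PTH hg a b

private lemma ip_diff_PTH {n : ℕ} {g : E n → Bl n} (hg : IsMet g) {ζ : E n → Dl n}
    (hζ : ContDiff ℝ ∞ ζ) : Differentiable ℝ (fun y => ip g y (ζ y) (ζ y)) := by
  have h : ContDiff ℝ ∞ (fun y => ip g y (ζ y) (ζ y)) := by
    unfold ip trg
    refine ContDiff.sum fun i _ => ContDiff.sum fun j _ => ?_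
    exact (gi_smooth_PTH hg i j).mul
      ((hζ.clm_apply contDiff_const).mul (hζ.clm_apply contDiff_const))
  exact h.differentiable (by simp)

private lemma N2_cont_PTH {n : ℕ} {g : E n → Bl n} {Γ : E n → Bm n} (hg : IsMet g)
    (hΓ : IsChr g Γ) {ζ : E n → Dl n} (hζ : ContDiff ℝ ∞ ζ) :
    Continuous (fun y => N2 g Γ ζ y) := by
  have hΓs : ContDiff ℝ ∞ Γ := (Pool.Agent.Helper41.LH.hChr n g Γ hg hΓ).1
  have hD : ContDiff ℝ ∞ (fderiv ℝ ζ) := hζ.fderiv_right (by simp)
  have hcf : ∀ u v : E n, Continuous (fun y => cf Γ ζ y u v) := by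
    intro u v
    unfold cf
    refine Continuous.sub ?_ ?_
    · exact ((hD.clm_apply contDiff_const).clm_apply contDiff_const).continuous
    · exact (hζ.clm_apply
        ((hΓs.clm_apply contDiff_const).clm_apply contDiff_const)).continuous
  unfold N2 nB trg
  refine continuous_finsetSum _ fun i _ => continuous_finsetSum _ fun j _ => ?_
  refine (gi_smooth_PTH hg i j).continuous.mul ?_
  refine continuous_finsetSum _ fun k _ => continuous_finsetSum _ fun l _ => ?_
  exact (gi_smooth_PTH hg k l).continuous.mul ((hcf _ _).mul (hcf _ _))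

private lemma cB_apply_PTH {n : ℕ} (Γ : E n → Bm n) (ζ : E n → Dl n) (x : E n) :
    (fun u v => cB Γ ζ x u v) = cf Γ ζ x := by
  funext u v
  simp [cB, cf]

/-- the comparison of `u` with the square of the primitive of `√ w` -/
private lemma comp_PTH (U U' W : ℝ → ℝ) (D : ℝ) (hD : 0 ≤ D) (hW : Continuous W)
    (hU : ∀ t ∈ Icc (0 : ℝ) 1, HasDerivWithinAt U (U' t) (Icc 0 1) t)
    (hU0 : U 0 = 0) (hW0 : ∀ t, 0 ≤ W t)
    (hb : ∀ t ∈ Icc (0 : ℝ) 1, U' t ≤ 2 * (D * √(W t)) * √(U t)) :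
    U 1 ≤ D ^ 2 * ∫ t in (0 : ℝ)..1, W t := by
  have hS : Continuous (fun t => √(W t)) := Real.continuous_sqrt.comp hW
  set I : ℝ := ∫ t in (0 : ℝ)..1, √(W t) with hI
  have key : ∀ δ : ℝ, 0 < δ → U 1 ≤ (2 * δ + D * I) ^ 2 := by
    intro δ hδ
    set G : ℝ → ℝ := fun t => δ + δ * t + D * ∫ s in (0 : ℝ)..t, √(W s) with hG
    have hGd : ∀ t, HasDerivAt G (δ + D * √(W t)) t := by
      intro t
      have h1 : HasDerivAt (fun t => ∫ s in (0 : ℝ)..t, √(W s)) (√(W t)) t :=
        intervalIntegral.integral_hasDerivAt_right (hS.intervalIntegrable _ _)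
          hS.stronglyMeasurable.stronglyMeasurableAtFilter hS.continuousAt
      have h2 : HasDerivAt (fun t : ℝ => δ + δ * t) δ t := by
        simpa using ((hasDerivAt_id t).const_mul δ).const_add δ
      exact h2.add (h1.const_mul D)
    have hGpos : ∀ t, 0 ≤ t → δ ≤ G t := by
      intro t ht
      have h1 : 0 ≤ ∫ s in (0 : ℝ)..t, √(W s) :=
        intervalIntegral.integral_nonneg ht fun s _ => Real.sqrt_nonneg _
      have h2 : 0 ≤ D * ∫ s in (0 : ℝ)..t, √(W s) := mul_nonneg hD h1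
      have h3 : 0 ≤ δ * t := mul_nonneg hδ.le ht
      simp only [hG]
      linarith
    have hB : ∀ t, HasDerivAt (fun t => G t ^ 2) (2 * G t * (δ + D * √(W t))) t := by
      intro t
      have h4 : HasDerivAt (fun t => G t * G t)
          ((δ + D * √(W t)) * G t + G t * (δ + D * √(W t))) t := (hGd t).mul (hGd t)
      have h5 : (fun t => G t ^ 2) = fun t => G t * G t := by
        funext s
        ring
      rw [h5]
      convert h4 using 1
      ring
    have main := image_le_of_deriv_right_lt_deriv_boundary (f := U) (f' := U') (a := 0) (b := 1)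
      (B := fun t => G t ^ 2) (B' := fun t => 2 * G t * (δ + D * √(W t)))
      (fun t ht => (hU t ht).continuousWithinAt)
      (fun t ht => by
        have h1 := hU t ⟨ht.1, ht.2.le⟩
        exact h1.mono_of_mem_nhdsWithin (Icc_mem_nhdsGE_of_mem ht))
      (by
        rw [hU0]
        positivity) hB
      (by
        intro t ht hUG
        have hGt : δ ≤ G t := hGpos t ht.1
        have hG0 : 0 < G t := lt_of_lt_of_le hδ hGt
        have h1 := hb t ⟨ht.1, ht.2.le⟩
        have h2 : √(U t) = G t := by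
          rw [hUG]
          exact Real.sqrt_sq hG0.le
        rw [h2] at h1
        have h3 : 0 < G t * δ := mul_pos hG0 hδ
        refine lt_of_le_of_lt h1 ?_
        nlinarith)
    have h1 := main (right_mem_Icc.2 zero_le_one)
    refine h1.trans (le_of_eq ?_)
    simp only [hG, hI]
    ring
  have hlim : U 1 ≤ (D * I) ^ 2 := by
    have h1 : Tendsto (fun δ : ℝ => (2 * δ + D * I) ^ 2) (𝓝[>] 0) (𝓝 ((2 * 0 + D * I) ^ 2)) := by
      have : Continuous (fun δ : ℝ => (2 * δ + D * I) ^ 2) := by fun_prop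
      exact (this.tendsto 0).mono_left nhdsWithin_le_nhds
    have h2 : U 1 ≤ (2 * 0 + D * I) ^ 2 :=
      ge_of_tendsto h1 (eventually_nhdsWithin_of_forall fun δ hδ => key δ hδ)
    simpa using h2
  have hCS : I ^ 2 ≤ ∫ t in (0 : ℝ)..1, W t := by
    have h1 : 0 ≤ ∫ t in (0 : ℝ)..1, (√(W t) - I) ^ 2 :=
      intervalIntegral.integral_nonneg zero_le_one fun t _ => sq_nonneg _
    have h2 : ∫ t in (0 : ℝ)..1, (√(W t) - I) ^ 2 =
        ∫ t in (0 : ℝ)..1, ((W t - (2 * I) * √(W t)) + I ^ 2) := by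
      refine intervalIntegral.integral_congr fun t _ => ?_
      have h3 : √(W t) ^ 2 = W t := Real.sq_sqrt (hW0 t)
      linear_combination h3
    rw [h2, intervalIntegral.integral_add, intervalIntegral.integral_sub,
      intervalIntegral.integral_const_mul, ← hI, intervalIntegral.integral_const] at h1
    · simp only [sub_zero, smul_eq_mul, one_mul] at h1
      nlinarith
    · exact hW.intervalIntegrable _ _
    · exact (hS.const_mul _).intervalIntegrable _ _
    · exact (hW.sub (hS.const_mul _)).intervalIntegrable _ _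
    · exact continuous_const.intervalIntegrable _ _
  calc U 1 ≤ (D * I) ^ 2 := hlim
    _ = D ^ 2 * I ^ 2 := by ring
    _ ≤ _ := mul_le_mul_of_nonneg_left hCS (sq_nonneg D)

theorem hPth (hMg : StMg) (hRgc : StRgc) (hIna : StIna) (hInb : StInb) (hNa : StNa) : StPth := by
  intro n g Γ hg hΓ hcpl ζ hζ x y hx
  obtain ⟨c, hc0, hc1, hcd⟩ := hMg n g hg hcpl x y
  obtain ⟨v, hgeo, hsp⟩ := hRgc n g Γ hg hΓ c x y ⟨hc0, hc1, hcd⟩
  -- the extended curve
  set P : ℝ → ℝ := fun t => (projIcc (0 : ℝ) 1 zero_le_one t : ℝ) with hP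
  have hPc : Continuous P := continuous_subtype_val.comp continuous_projIcc
  have hPm : ∀ t, P t ∈ Icc (0 : ℝ) 1 := fun t => (projIcc (0 : ℝ) 1 zero_le_one t).2
  have hPe : ∀ t ∈ Icc (0 : ℝ) 1, P t = t := by
    intro t ht
    simp only [hP]
    rw [projIcc_of_mem zero_le_one ht]
  have hcc : ContinuousOn c (Icc 0 1) := fun t ht => (hgeo.dc t ht).continuousWithinAt
  have hcP : Continuous (fun t => c (P t)) := hcc.comp_continuous hPc hPm
  set U : ℝ → ℝ := fun t => ip g (c t) (ζ (c t)) (ζ (c t)) with hUdef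
  set W : ℝ → ℝ := fun t => N2 g Γ ζ (c (P t)) with hWdef
  have hWc : Continuous W := (N2_cont_PTH hg hΓ hζ).comp hcP
  have hN0 : ∀ z, 0 ≤ N2 g Γ ζ z := by
    intro z
    have h1 := (hInb n g hg z).1 (cB Γ ζ z)
    rw [cB_apply_PTH] at h1
    exact h1
  have hζ1 : ContDiff ℝ 1 ζ := hζ.of_le (by exact_mod_cast le_top)
  have hU : ∀ t ∈ Icc (0 : ℝ) 1, HasDerivWithinAt U
      (2 * ip g (c t) (cB Γ ζ (c t) (v t)) (ζ (c t))) (Icc 0 1) t := by
    intro t ht
    have h1 : HasFDerivAt (fun y => ip g y (ζ y) (ζ y))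
        (fderiv ℝ (fun y => ip g y (ζ y) (ζ y)) (c t)) (c t) :=
      (ip_diff_PTH hg hζ (c t)).hasFDerivAt
    have h2 := h1.comp_hasDerivWithinAt t (hgeo.dc t ht)
    have h3 : fderiv ℝ (fun y => ip g y (ζ y) (ζ y)) (c t) (v t) =
        2 * ip g (c t) (cB Γ ζ (c t) (v t)) (ζ (c t)) := by
      rw [hNa n g Γ hg hΓ ζ ζ hζ1 hζ1 (c t) (v t),
        (hIna n g hg (c t)).2.1 (ζ (c t)) (cB Γ ζ (c t) (v t))]
      ring
    rw [h3] at h2
    exact h2
  have hb : ∀ t ∈ Icc (0 : ℝ) 1, 2 * ip g (c t) (cB Γ ζ (c t) (v t)) (ζ (c t)) ≤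
      2 * (|dg g x y| * √(W t)) * √(U t) := by
    intro t ht
    obtain ⟨i1, i2, i3, i4, i5, i6, i7, i8⟩ := hIna n g hg (c t)
    have h1 := i4 (cB Γ ζ (c t) (v t)) (ζ (c t))
    have h2 := i8 (cB Γ ζ (c t)) (v t)
    rw [cB_apply_PTH, hsp t ht] at h2
    have h3 : √(ip g (c t) (cB Γ ζ (c t) (v t)) (cB Γ ζ (c t) (v t))) ≤
        √(W t) * |dg g x y| := by
      have h4 : W t = nB g (c t) (cf Γ ζ (c t)) := by
        simp only [hWdef]
        rw [hPe t ht]
        rfl
      rw [h4, ← Real.sqrt_sq_eq_abs, ← Real.sqrt_mul (by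
        have := hN0 (c t)
        exact this)]
      exact Real.sqrt_le_sqrt h2
    have h5 := le_of_abs_le h1
    have h6 : √(ip g (c t) (cB Γ ζ (c t) (v t)) (cB Γ ζ (c t) (v t))) * √(U t) ≤
        (√(W t) * |dg g x y|) * √(U t) :=
      mul_le_mul_of_nonneg_right h3 (Real.sqrt_nonneg _)
    have h7 : √(U t) = √(ip g (c t) (ζ (c t)) (ζ (c t))) := rfl
    rw [← h7] at h5
    linarith
  have hU0 : U 0 = 0 := by
    simp only [hUdef]
    rw [hc0, hx]
    simp [ip, trg]
  have hfin := comp_PTH U _ W |dg g x y| (abs_nonneg _) hWc hU hU0 (fun t => hN0 _) hb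
  rw [sq_abs] at hfin
  have hU1 : U 1 = ip g y (ζ y) (ζ y) := by
    simp only [hUdef]
    rw [hc1]
  rw [hU1] at hfin
  have hI0 : (∫ t in (0 : ℝ)..1, W t) = ∫ t in Icc (0 : ℝ) 1, W t := by
    rw [intervalIntegral.integral_of_le zero_le_one, integral_Icc_eq_integral_Ioc]
  rw [hI0] at hfin
  have hWint : Integrable W (volume.restrict (Icc (0 : ℝ) 1)) :=
    (hWc.continuousOn.integrableOn_compact isCompact_Icc)
  calc ENNReal.ofReal (ip g y (ζ y) (ζ y))
      ≤ ENNReal.ofReal (dg g x y ^ 2 * ∫ t in Icc (0 : ℝ) 1, W t) :=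
        ENNReal.ofReal_le_ofReal hfin
    _ = ENNReal.ofReal (dg g x y ^ 2) * ENNReal.ofReal (∫ t in Icc (0 : ℝ) 1, W t) :=
        ENNReal.ofReal_mul (sq_nonneg _)
    _ = ENNReal.ofReal (dg g x y ^ 2) * ∫⁻ t in Icc (0 : ℝ) 1, ENNReal.ofReal (W t) := by
        rw [ofReal_integral_eq_lintegral_ofReal hWint
          (Eventually.of_forall fun t => hN0 _)]
    _ ≤ ENNReal.ofReal (dg g x y ^ 2) * ∫⁻ t in Icc (0 : ℝ) 1, HS g (N2 g Γ ζ) t x y := by
        refine mul_le_mul_right ?_ _
        refine setLIntegral_mono' measurableSet_Icc fun t ht => ?_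
        have hmem : c t ∈ Gt g t x y := by
          have h0 : (0 : ℝ) ∈ Icc (0 : ℝ) 1 := left_mem_Icc.2 zero_le_one
          have h1 : (1 : ℝ) ∈ Icc (0 : ℝ) 1 := right_mem_Icc.2 zero_le_one
          constructor
          · rw [← hc0]
            rw [hcd 0 h0 t ht, hc0, zero_sub, abs_neg, abs_of_nonneg ht.1]
          · have h2 := hcd t ht 1 h1
            rw [hc1] at h2
            rw [h2, abs_sub_comm, abs_of_nonneg (sub_nonneg.2 ht.2)]
        have hWt : W t = N2 g Γ ζ (c t) := by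
          simp only [hWdef]
          rw [hPe t ht]
        rw [hWt]
        exact le_iSup₂ (f := fun z (_ : z ∈ Gt g t x y) => ENNReal.ofReal (N2 g Γ ζ z)) (c t) hmem

end Pool.Agent.Helper19.LH
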